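import Mathlib
import Pool.Agent.Q119.PT.Tournament

/-!
# Poset tournaments are not chi-bounded

For every `m` there is a poset tournament with clique number `2` and dichromatic number at least
`m`.  So the class of all poset tournaments is not chi-bounded.

The tournament.  Let `Q` be a finite poset of dimension two, the intersection of the linear orders
`L₁` and `L₂`.  The pairs `u < v` of `Q` that are not cover pairs form a partial order `P`.  Take the
tournament with the arc `v → u` if `u < v` in `P`, and the arcs given by `L₁` on all other pairs.  It is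
a poset tournament, its backedges for the reverse of `L₂` are exactly the cover pairs of `Q`, a
triangle-free graph, and a set without directed triangles induces a bipartite subgraph of the Hasse
diagram of `Q`.  It remains to know that Hasse diagrams of orders of dimension two have unbounded
chromatic number; this is proved here by a union bound over a family of lexicographically nested
height functions.
-/

set_option autoImplicit false

namespace Pool.Agent.Results.MP_265233_co.NotChiBounded

/-- `A u v` says that `u → v` is an arc; there is exactly one arc between two distinct vertices and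
there are no loops. -/
def IsTournament {V : Type} (A : V → V → Prop) : Prop :=
  (∀ u, ¬ A u u) ∧ ∀ u v, u ≠ v → (A u v ∨ A v u) ∧ ¬ (A u v ∧ A v u)

/-- A poset tournament: for some total order the arcs pointing forward are transitive. -/
def IsPosetTournament {V : Type} (A : V → V → Prop) : Prop :=
  IsTournament A ∧ ∃ o : LinearOrder V, ∀ u v w, o.lt u v → o.lt v w → A u v → A v w → A u w

/-- `v` and `w` are adjacent if `v < w` and `w → v`, or the same with the roles exchanged. -/
def backedgeGraph {V : Type} (A : V → V → Prop) (o : LinearOrder V) : SimpleGraph V :=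
  SimpleGraph.fromRel fun v w => o.lt v w ∧ A w v

/-- The clique number of a digraph: the least clique number of a backedge graph. -/
noncomputable def cliqueNumber {V : Type} (A : V → V → Prop) : ℕ :=
  sInf (Set.range fun o : LinearOrder V => (backedgeGraph A o).cliqueNum)

/-- The subdigraph induced on `S` has no directed cycle. -/
def AcyclicOn {V : Type} (A : V → V → Prop) (S : Set V) : Prop :=
  ∀ v, ¬ Relation.TransGen (fun x y => x ∈ S ∧ y ∈ S ∧ A x y) v v

/-- The dichromatic number: the least number of colours with acyclic colour classes. -/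
noncomputable def dichromaticNumber {V : Type} (A : V → V → Prop) : ℕ :=
  sInf {k | ∃ c : V → Fin k, ∀ i, AcyclicOn A {v | c v = i}}

/-- A class of finite digraphs is chi-bounded if the dichromatic number is bounded by a function of
the clique number. -/
def ChiBounded (C : ∀ V : Type, (V → V → Prop) → Prop) : Prop :=
  ∃ f : ℕ → ℕ, ∀ (V : Type) (_ : Fintype V) (A : V → V → Prop),
    C V A → dichromaticNumber A ≤ f (cliqueNumber A)

open Q119.PT

theorem dichromatic_mem {V : Type} [Fintype V] {A : V → V → Prop} (hA : ∀ v, ¬ A v v) :
    ∃ c : V → Fin (dichromaticNumber A), ∀ i, AcyclicOn A {v | c v = i} := by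
  have hne : {k | ∃ c : V → Fin k, ∀ i, AcyclicOn A {v | c v = i}}.Nonempty := by
    classical
    refine ⟨Fintype.card V, Fintype.equivFin V, fun i v hv => ?_⟩
    have key : ∀ x y : V, Relation.TransGen
        (fun x y => x ∈ {v | Fintype.equivFin V v = i} ∧ y ∈ {v | Fintype.equivFin V v = i} ∧ A x y)
        x y → False := by
      intro x y hxy
      induction hxy with
      | single h =>
        obtain ⟨h1, h2, h3⟩ := h
        have : x = _ := (Fintype.equivFin V).injective (h1.trans h2.symm)
        exact hA _ (this ▸ h3)
      | tail _ _ ih => exact ih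
    exact key v v hv
  exact Nat.sInf_mem hne

theorem two_le_cliqueNumber {V : Type} [Fintype V] {A : V → V → Prop} (hA : ∀ v, ¬ A v v)
    (h : 1 < dichromaticNumber A) : 2 ≤ cliqueNumber A := by
  classical
  have hne : (Set.range fun o : LinearOrder V => (backedgeGraph A o).cliqueNum).Nonempty :=
    ⟨_, LinearOrder.lift' (Fintype.equivFin V) (Fintype.equivFin V).injective, rfl⟩
  obtain ⟨o, ho⟩ := Nat.sInf_mem hne
  change (backedgeGraph A o).cliqueNum = cliqueNumber A at ho
  rw [← ho]
  by_contra hlt
  push Not at hlt
  have hno : ∀ v w : V, o.lt v w → ¬ A w v := by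
    intro v w hvw hwv
    have hne : v ≠ w := fun he => hA v (by rw [← he] at hwv; exact hwv)
    have hadj : (backedgeGraph A o).Adj v w := ⟨hne, Or.inl ⟨hvw, hwv⟩⟩
    have hcl : (backedgeGraph A o).IsClique ({v, w} : Finset V) := by
      intro x hx y hy hxy
      simp only [Finset.coe_insert, Finset.coe_singleton, Set.mem_insert_iff,
        Set.mem_singleton_iff] at hx hy
      rcases hx with rfl | rfl <;> rcases hy with rfl | rfl
      · exact absurd rfl hxy
      · exact hadj
      · exact hadj.symm
      · exact absurd rfl hxy
    have := hcl.card_le_cliqueNum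
    rw [Finset.card_pair hne] at this
    omega
  have hone : ∃ c : V → Fin 1, ∀ i, AcyclicOn A {v | c v = i} := by
    refine ⟨fun _ => 0, fun i v hv => ?_⟩
    have key : ∀ x y : V, Relation.TransGen
        (fun x y => x ∈ {v : V | (0 : Fin 1) = i} ∧ y ∈ {v : V | (0 : Fin 1) = i} ∧ A x y)
        x y → o.lt x y := by
      have hstep : ∀ x y : V, A x y → o.lt x y := by
        intro x y hxy
        rcases @lt_trichotomy V o x y with h1 | h1 | h1
        · exact h1
        · exact absurd (h1 ▸ hxy) (hA _)
        · exact absurd hxy (hno _ _ h1)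
      intro x y hxy
      induction hxy with
      | single h => exact hstep _ _ h.2.2
      | tail _ h ih => exact @lt_trans V o.toPreorder _ _ _ ih (hstep _ _ h.2.2)
    exact @lt_irrefl V o.toPreorder v (key v v hv)
  have : dichromaticNumber A ≤ 1 := Nat.sInf_le hone
  omega

/-- the reverse of the second order -/
abbrev revOrder {V H : Type} [LinearOrder H] (h : V → H) (hinj : Function.Injective h) :
    LinearOrder V :=
  LinearOrder.lift' (β := Hᵒᵈ) (fun v => OrderDual.toDual (h v))
    (fun _ _ hab => hinj (OrderDual.toDual.injective hab))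

theorem cliqueNumber_le {V H : Type} [Fintype V] [LinearOrder V] [LinearOrder H] (h : V → H)
    (hinj : Function.Injective h) : cliqueNumber (Arc h) ≤ 2 := by
  classical
  refine le_trans (Nat.sInf_le ⟨revOrder h hinj, rfl⟩) ?_
  have hadj : ∀ v w : V, (backedgeGraph (Arc h) (revOrder h hinj)).Adj v w →
      Cov h v w ∨ Cov h w v := by
    intro v w hvw
    rcases hvw.2 with ⟨h1, h2⟩ | ⟨h1, h2⟩
    · exact Or.inr (cov_of_backedge h1 h2)
    · exact Or.inl (cov_of_backedge h1 h2)
  obtain ⟨s, hs⟩ := (backedgeGraph (Arc h) (revOrder h hinj)).exists_isNClique_cliqueNum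
  by_contra hlt
  push Not at hlt
  change 2 < (backedgeGraph (Arc h) (revOrder h hinj)).cliqueNum at hlt
  rw [← hs.card_eq] at hlt
  obtain ⟨a, b, c, ha, hb, hc, hab, hac, hbc⟩ := Finset.two_lt_card_iff.mp hlt
  exact no_triangle (hadj _ _ (hs.isClique ha hb hab)) (hadj _ _ (hs.isClique hb hc hbc))
    (hadj _ _ (hs.isClique ha hc hac))

theorem main (m : ℕ) : ∃ (V : Type) (_ : Fintype V) (A : V → V → Prop),
    IsPosetTournament A ∧ cliqueNumber A = 2 ∧ m < dichromaticNumber A := by
  classical
  wlog hm : 1 ≤ m generalizing m
  · obtain ⟨V, iV, A, h1, h2, h3⟩ := this 1 le_rfl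
    exact ⟨V, iV, A, h1, h2, by omega⟩
  obtain ⟨V, H, iV, oV, oH, h, hinj, hcol⟩ := exists_hasse (2 * m)
  have hlow : m < dichromaticNumber (Arc h) := by
    by_contra hle
    push Not at hle
    obtain ⟨c, hc⟩ := dichromatic_mem (A := Arc h) (arc_irrefl h)
    obtain ⟨χ, hχ⟩ := two_colours (h := h) c (by
      intro x y z hxy hyz a1 a2 a3
      refine hc (c x) x ?_
      refine Relation.TransGen.tail (Relation.TransGen.tail (Relation.TransGen.single
        (b := y) ⟨rfl, hxy.symm, a1⟩) (c := z) ⟨hxy.symm, ?_, a2⟩) ⟨?_, rfl, a3⟩
      · exact (hxy.trans hyz).symm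
      · exact (hxy.trans hyz).symm) hle
    exact hcol χ hχ
  refine ⟨V, iV, Arc h, ⟨⟨arc_irrefl h, fun u v huv => arc_total h huv⟩, ?_⟩, ?_, hlow⟩
  · refine ⟨(inferInstance : LinearOrder Vᵒᵈ), ?_⟩
    intro u v w huv hvw h1 h2
    exact arc_trans_back (u := u) (v := v) (w := w) huv hvw h1 h2
  · exact le_antisymm (cliqueNumber_le h hinj) (two_le_cliqueNumber (arc_irrefl h) (by omega))

theorem result :
    (∀ m : ℕ, ∃ (V : Type) (_ : Fintype V) (A : V → V → Prop),
      IsPosetTournament A ∧ cliqueNumber A = 2 ∧ m < dichromaticNumber A) ∧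
    ¬ ChiBounded (fun _ A => IsPosetTournament A) := by
  refine ⟨main, ?_⟩
  rintro ⟨f, hf⟩
  obtain ⟨V, iV, A, h1, h2, h3⟩ := main (f 2)
  have := hf V iV A h1
  rw [h2] at this
  omega

end Pool.Agent.Results.MP_265233_co.NotChiBounded
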